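import Pool.Agent.Q279.PM.Fin
import Pool.Agent.Q279.PM.J.SLOPE
import Pool.Agent.Q279.PM.J.ASC
import Pool.Agent.Q279.PM.J.FLUX
import Pool.Agent.Q279.PM.J.IDENT
import Pool.Agent.Q279.PM.J.TEST
import Pool.Agent.Q279.PM.J.UPPER
import Pool.Agent.Q279.PM.J.BD
import Pool.Agent.Q279.PM.J.NUM
import Pool.Agent.Q279.PM.J.REG
import Pool.Agent.Q279.PM.J.DER
import Pool.Agent.Q279.PM.J.QF
import Pool.Agent.Q279.PM.J.EXPL
import Pool.Agent.Q279.PM.J.GAIN
import Pool.Agent.Q279.PM.J.MASS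
import Pool.Agent.Q279.PM.J.TAU
import Pool.Agent.Q279.PM.J.PHI
import Pool.Agent.Q279.PM.J.CHOICE

/-!
# MP_bfb34b_an: the maximal total population is not monotone in lambda

There are a bounded interval, a carrying capacity `K` and a dispersal strategy `P`, both
smooth and positive, with `K/P` not constant, and `0 < lam1 < lam2 ≤ 1`, such that the
supremum of the total population over all dispersal rates `d > 0` is strictly smaller for
`lam2` than for `lam1`.  So Q1 has a negative answer.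
-/

namespace Pool.Agent.Results.MP_bfb34b_an.NotMonotone

open Set Pool.Agent.Q279.PM

theorem result :
    ∃ (a b : ℝ) (K P : ℝ → ℝ) (lam1 lam2 : ℝ), a < b ∧ ContDiff ℝ (⊤ : ℕ∞) K ∧
      ContDiff ℝ (⊤ : ℕ∞) P ∧ (∀ x, 0 < K x) ∧ (∀ x, 0 < P x) ∧
      (∃ x ∈ Icc a b, ∃ y ∈ Icc a b, K x / P x ≠ K y / P y) ∧
      0 < lam1 ∧ lam1 < lam2 ∧ lam2 ≤ 1 ∧ maxPop a b K P lam2 < maxPop a b K P lam1 :=
  final (JUPPER.main JSLOPE.main JASC.main JFLUX.main JIDENT.main JTEST.main) JBD.main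
    JNUM.main JREG.main JDER.main JQF.main JEXPL.main JGAIN.main JMASS.main JTAU.main
    JPHI.main JCHOICE.main

end Pool.Agent.Results.MP_bfb34b_an.NotMonotone
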